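import Pool.Agent.W500.CS.Stm2

/-!
# MP_46692b_an, project CQ, part AEP: null sets under `s ↦ z₀ + s ^ N`
-/

set_option autoImplicit false

namespace Pool.Agent.W304.CQ.AEP

open MeasureTheory Set Filter Topology

theorem main : Pool.Agent.W500.CS.S_AEP := by
  intro p z₀ N hN hp
  set f : ℂ → ℂ := fun s => z₀ + s ^ N with hf
  obtain ⟨T, hT1, hTm, hT0⟩ := exists_measurable_superset_of_null (ae_iff.mp hp)
  have hder : ∀ s : ℂ, HasStrictDerivAt f ((N : ℂ) * s ^ (N - 1)) s := by
    intro s
    have := (hasStrictDerivAt_pow N s).const_add z₀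
    exact this
  have hfm : Measurable f := by
    have : Continuous f := by fun_prop
    exact this.measurable
  set B : Set ℂ := {s | s ≠ 0 ∧ f s ∈ T} with hB
  have hBm : MeasurableSet B := by
    have h1 : MeasurableSet {s : ℂ | s ≠ 0} := (measurableSet_singleton (0 : ℂ)).compl
    exact h1.inter (hfm hTm)
  have hB0 : volume B = 0 := by
    apply measure_null_of_locally_null
    intro s hs
    have hne : (N : ℂ) * s ^ (N - 1) ≠ 0 :=
      mul_ne_zero (Nat.cast_ne_zero.mpr hN.ne') (pow_ne_zero _ hs.1)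
    set e := (hder s).hasStrictFDerivAt_equiv hne with he
    set φ := e.toOpenPartialHomeomorph f with hφ
    have hsU : s ∈ φ.source := e.mem_toOpenPartialHomeomorph_source
    have hUo : IsOpen φ.source := φ.open_source
    have hinj : InjOn f φ.source := φ.injOn
    refine ⟨φ.source ∩ B, ?_, ?_⟩
    · exact inter_mem (mem_nhdsWithin_of_mem_nhds (hUo.mem_nhds hsU)) self_mem_nhdsWithin
    · have hAm : MeasurableSet (φ.source ∩ B) := hUo.measurableSet.inter hBm
      have hd : ∀ x ∈ φ.source ∩ B, HasFDerivWithinAt f ((fun x : ℂ =>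
          ((ContinuousLinearMap.toSpanSingleton ℂ
          ((N : ℂ) * x ^ (N - 1)) : ℂ →L[ℂ] ℂ).restrictScalars ℝ)) x) (φ.source ∩ B) x :=
        fun x _ => ((hder x).hasDerivAt.hasFDerivAt.restrictScalars ℝ).hasFDerivWithinAt
      have key := lintegral_abs_det_fderiv_eq_addHaar_image (volume : Measure ℂ) hAm hd
        (hinj.mono inter_subset_left)
      have himg : volume (f '' (φ.source ∩ B)) = 0 := by
        refine measure_mono_null ?_ hT0
        rintro _ ⟨x, hx, rfl⟩
        exact hx.2.2
      rw [himg] at key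
      have hz := (lintegral_eq_zero_iff'
        (aemeasurable_ofReal_abs_det_fderivWithin (volume : Measure ℂ) hAm hd)).mp key
      have hz2 := (ae_restrict_iff' hAm).mp hz
      refine measure_mono_null ?_ (ae_iff.mp hz2)
      intro x hx
      simp only [mem_setOf_eq]
      intro hcon
      have h1 := hcon hx
      simp only [Pi.zero_apply, ENNReal.ofReal_eq_zero, abs_nonpos_iff] at h1
      have hxne : (N : ℂ) * x ^ (N - 1) ≠ 0 :=
        mul_ne_zero (Nat.cast_ne_zero.mpr hN.ne') (pow_ne_zero _ hx.2.1)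
      have hker := LinearMap.bot_lt_ker_of_det_eq_zero h1
      obtain ⟨v, hv, hv0⟩ := (Submodule.ne_bot_iff _).mp hker.ne'
      rw [LinearMap.mem_ker] at hv
      have hv' : v * ((N : ℂ) * x ^ (N - 1)) = 0 := by
        simpa using hv
      rcases mul_eq_zero.mp hv' with h | h
      · exact hv0 h
      · exact hxne h
  rw [ae_iff]
  have hsub : {s : ℂ | ¬ p (z₀ + s ^ N)} ⊆ B ∪ {0} := by
    intro s hs
    by_cases h0 : s = 0
    · right; exact h0
    · left; exact ⟨h0, hT1 hs⟩
  refine measure_mono_null hsub ?_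
  rw [measure_union_null_iff]
  exact ⟨hB0, by simp⟩

end Pool.Agent.W304.CQ.AEP
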